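import Pool.Agent.H6.N4D.TC

/-!
# Row SBL: the logarithmic sum over the bad sub-windows
-/

set_option autoImplicit false

open Finset Pool.Agent.H6.N4D

namespace Pool.Agent.H7.N4D

/-- The harmonic sum. -/
private theorem hrm (a : ℕ) (ha : 1 ≤ a) : ∀ b : ℕ, a ≤ b →
    ∑ n ∈ Ioc a b, 1 / (n : ℝ) ≤ Real.log b - Real.log a := by
  intro b hab
  induction b, hab using Nat.le_induction with
  | base => simp
  | succ b hb ih =>
    rw [Finset.sum_Ioc_succ_top hb]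
    have hb0 : (0 : ℝ) < b := by exact_mod_cast (by omega : 0 < b)
    have h1 : 1 / ((b + 1 : ℕ) : ℝ) ≤ Real.log ((b + 1 : ℕ) : ℝ) - Real.log b := by
      have h2 : Real.log ((b : ℝ) / ((b : ℝ) + 1)) ≤ (b : ℝ) / ((b : ℝ) + 1) - 1 :=
        Real.log_le_sub_one_of_pos (by positivity)
      rw [Real.log_div (by positivity) (by positivity)] at h2
      have h3 : (b : ℝ) / ((b : ℝ) + 1) - 1 = - (1 / ((b : ℝ) + 1)) := by
        field_simp
        ring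
      rw [h3] at h2
      push_cast
      linarith
    linarith

/-- The exchange of the sums. -/
private theorem exc (A B H : ℕ) (hH : 1 ≤ H) (hHA : H ≤ A) (bad' : ℕ → Prop)
    [DecidablePred bad'] :
    ∑ m ∈ (Ioc A B).filter bad', 1 / (m : ℝ) ≤
      ∑ n ∈ Ioc (A - H) B, 1 / (H : ℝ) * ((((Ioc n (n + H)).filter bad').card : ℝ) *
        (1 / (n : ℝ))) := by
  have hH0 : (0 : ℝ) < H := by exact_mod_cast hH
  have h1 : ∀ m ∈ (Ioc A B).filter bad', 1 / (m : ℝ) ≤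
      ∑ n ∈ Ioc (A - H) B, if n < m ∧ m ≤ n + H then 1 / (H : ℝ) * (1 / (n : ℝ)) else 0 := by
    intro m hm
    rw [mem_filter, mem_Ioc] at hm
    obtain ⟨⟨hm1, hm2⟩, -⟩ := hm
    rw [← sum_filter]
    have hset : (Ioc (A - H) B).filter (fun n => n < m ∧ m ≤ n + H) = Ico (m - H) m := by
      ext n
      rw [mem_filter, mem_Ioc, mem_Ico]
      omega
    rw [hset]
    have h2 : ∀ n ∈ Ico (m - H) m, 1 / (H : ℝ) * (1 / (m : ℝ)) ≤ 1 / (H : ℝ) * (1 / (n : ℝ)) := by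
      intro n hn
      rw [mem_Ico] at hn
      have hn0 : (0 : ℝ) < n := by exact_mod_cast (by omega : 0 < n)
      have hnm : (n : ℝ) ≤ m := by exact_mod_cast hn.2.le
      exact mul_le_mul_of_nonneg_left (one_div_le_one_div_of_le hn0 hnm) (by positivity)
    have h3 := card_nsmul_le_sum _ _ _ h2
    rw [Nat.card_Ico, show m - (m - H) = H by omega, nsmul_eq_mul] at h3
    have h4 : (H : ℝ) * (1 / (H : ℝ) * (1 / (m : ℝ))) = 1 / (m : ℝ) := by
      field_simp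
    linarith
  refine (sum_le_sum h1).trans ?_
  rw [sum_comm]
  apply sum_le_sum
  intro n hn
  rw [← sum_filter, sum_const, nsmul_eq_mul]
  have h5 : ((((Ioc A B).filter bad').filter (fun m => n < m ∧ m ≤ n + H)).card : ℝ) ≤
      (((Ioc n (n + H)).filter bad').card : ℝ) := by
    exact_mod_cast card_le_card (fun m hm => by
      rw [mem_filter, mem_filter] at hm
      rw [mem_filter, mem_Ioc]
      exact ⟨hm.2, hm.1.2⟩)
  have h6 : (0 : ℝ) ≤ 1 / (H : ℝ) * (1 / (n : ℝ)) := by positivity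
  calc _ ≤ (((Ioc n (n + H)).filter bad').card : ℝ) * (1 / (H : ℝ) * (1 / (n : ℝ))) :=
        mul_le_mul_of_nonneg_right h5 h6
    _ = _ := by ring

open Classical in
/-- The good windows. -/
private theorem gdw (hSBW : T_SBW) (lam : ℕ → ℝ) (Q : ℕ) (η e e₁ r : ℝ) (A B Y n : ℕ)
    (he : 0 ≤ e) (he1 : 0 < e₁) (hr : 0 < r) (hY : 4 ≤ Y)
    (h8 : 8 ≤ r * ((A : ℝ) - Y)) (h4 : 4 * (r * ((B : ℝ) + Y)) ≤ Y)
    (hn1 : A - Y / 2 < n) (hn2 : n ≤ B) (hg : GW lam Q η e Y n) :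
    (((Ioc n (n + Y / 2)).filter fun m : ℕ => ¬ GW lam Q η e₁ ⌊r * (m : ℝ)⌋₊ m).card : ℝ) ≤
      2 * (e / e₁) * Y := by
  have hYr : ((Y / 2 : ℕ) : ℝ) ≤ (Y : ℝ) / 2 := by
    have h1 : 2 * (Y / 2) ≤ Y := Nat.mul_div_le Y 2
    have h2 : (2 : ℝ) * ((Y / 2 : ℕ) : ℝ) ≤ Y := by exact_mod_cast h1
    linarith
  have hnA : (A : ℝ) - Y / 2 + 1 ≤ n := by
    have h1 : A + 1 ≤ n + Y / 2 := by omega
    have h2 : (A : ℝ) + 1 ≤ n + ((Y / 2 : ℕ) : ℝ) := by exact_mod_cast h1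
    linarith
  have hnB : (n : ℝ) ≤ B := by exact_mod_cast hn2
  have hY4 : (4 : ℝ) ≤ Y := by exact_mod_cast hY
  have hZle : ((⌊r * ((n : ℝ) + 1)⌋₊ : ℕ) : ℝ) ≤ r * ((n : ℝ) + 1) :=
    Nat.floor_le (by positivity)
  have hZgt : r * ((n : ℝ) + 1) < ((⌊r * ((n : ℝ) + 1)⌋₊ : ℕ) : ℝ) + 1 :=
    Nat.lt_floor_add_one _
  have hnY : r * ((A : ℝ) - Y) ≤ r * ((n : ℝ) - Y / 2) :=
    mul_le_mul_of_nonneg_left (by linarith) hr.le
  have hn1B : r * ((n : ℝ) + 1) ≤ r * ((B : ℝ) + Y) :=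
    mul_le_mul_of_nonneg_left (by linarith) hr.le
  refine hSBW lam Q η e e₁ Y n (Y / 2) ⌊r * ((n : ℝ) + 1)⌋₊ (fun m : ℕ => ⌊r * (m : ℝ)⌋₊) he he1
    ?_ ?_ ?_ hg
  · apply Nat.le_floor
    have h1 : r * ((n : ℝ) - Y / 2) ≤ r * ((n : ℝ) + 1) :=
      mul_le_mul_of_nonneg_left (by linarith) hr.le
    push_cast
    linarith
  · have h1 : (((Y / 2 + 2 * ⌊r * ((n : ℝ) + 1)⌋₊ : ℕ)) : ℝ) ≤ (Y : ℝ) := by
      rw [Nat.cast_add, Nat.cast_mul]
      push_cast at hYr ⊢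
      linarith
    exact_mod_cast h1
  · intro m hm
    rw [mem_Ioc] at hm
    have hm1 : (n : ℝ) + 1 ≤ m := by exact_mod_cast hm.1
    have hm2 : (m : ℝ) ≤ n + ((Y / 2 : ℕ) : ℝ) := by exact_mod_cast hm.2
    constructor
    · exact Nat.floor_le_floor (mul_le_mul_of_nonneg_left hm1 hr.le)
    · have h1 : ((⌊r * (m : ℝ)⌋₊ : ℕ) : ℝ) ≤ r * (m : ℝ) := Nat.floor_le (by positivity)
      have h2 : r * (m : ℝ) ≤ r * ((n : ℝ) + Y / 2) :=
        mul_le_mul_of_nonneg_left (by linarith) hr.le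
      have h3 : ((⌊r * (m : ℝ)⌋₊ : ℕ) : ℝ) ≤ ((2 * ⌊r * ((n : ℝ) + 1)⌋₊ : ℕ) : ℝ) := by
        push_cast
        nlinarith
      exact_mod_cast h3

theorem pf_SBL (hSBW : T_SBW) : T_SBL := by
  classical
  intro lam Q η e e₁ r A B Y he he1 hr hr1 hY hYA hAB h8 h4
  have hH1 : 1 ≤ Y / 2 := by omega
  have hYr : (Y : ℝ) ≤ 3 * ((Y / 2 : ℕ) : ℝ) := by
    exact_mod_cast (by omega : Y ≤ 3 * (Y / 2))
  have hH0 : (0 : ℝ) < ((Y / 2 : ℕ) : ℝ) := by exact_mod_cast hH1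
  have hee : 0 ≤ e / e₁ := div_nonneg he he1.le
  have hmain := exc A B (Y / 2) hH1 (by omega) (fun n : ℕ => ¬ GW lam Q η e₁ ⌊r * (n : ℝ)⌋₊ n)
  refine hmain.trans ?_
  have hterm : ∀ n ∈ Ioc (A - Y / 2) B, 1 / ((Y / 2 : ℕ) : ℝ) *
      ((((Ioc n (n + Y / 2)).filter fun m : ℕ => ¬ GW lam Q η e₁ ⌊r * (m : ℝ)⌋₊ m).card : ℝ) *
        (1 / (n : ℝ))) ≤
      (if ¬ GW lam Q η e Y n then 1 / (n : ℝ) else 0) + 6 * (e / e₁) * (1 / (n : ℝ)) := by
    intro n hn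
    rw [mem_Ioc] at hn
    have hn0 : (0 : ℝ) ≤ 1 / (n : ℝ) := by positivity
    by_cases hg : GW lam Q η e Y n
    · rw [if_neg (not_not.2 hg), zero_add]
      have h1 := gdw hSBW lam Q η e e₁ r A B Y n he he1 hr hY h8 h4 hn.1 hn.2 hg
      calc _ ≤ 1 / ((Y / 2 : ℕ) : ℝ) * (2 * (e / e₁) * Y * (1 / (n : ℝ))) :=
            mul_le_mul_of_nonneg_left (mul_le_mul_of_nonneg_right h1 hn0) (by positivity)
        _ = (Y : ℝ) / ((Y / 2 : ℕ) : ℝ) * (2 * (e / e₁) * (1 / (n : ℝ))) := by ring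
        _ ≤ 3 * (2 * (e / e₁) * (1 / (n : ℝ))) := by
            apply mul_le_mul_of_nonneg_right _ (by positivity)
            rw [div_le_iff₀ hH0]
            exact hYr
        _ = _ := by ring
    · rw [if_pos hg]
      have h1 : ((((Ioc n (n + Y / 2)).filter fun m : ℕ =>
          ¬ GW lam Q η e₁ ⌊r * (m : ℝ)⌋₊ m).card : ℕ) : ℝ) ≤ ((Y / 2 : ℕ) : ℝ) := by
        have h2 := card_filter_le (Ioc n (n + Y / 2))
          (fun m : ℕ => ¬ GW lam Q η e₁ ⌊r * (m : ℝ)⌋₊ m)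
        rw [Nat.card_Ioc, Nat.add_sub_cancel_left] at h2
        exact_mod_cast h2
      have h3 : 0 ≤ 6 * (e / e₁) * (1 / (n : ℝ)) := by positivity
      calc _ ≤ 1 / ((Y / 2 : ℕ) : ℝ) * (((Y / 2 : ℕ) : ℝ) * (1 / (n : ℝ))) :=
            mul_le_mul_of_nonneg_left (mul_le_mul_of_nonneg_right h1 hn0) (by positivity)
        _ = 1 / (n : ℝ) := by
            rw [← mul_assoc, one_div_mul_cancel hH0.ne', one_mul]
        _ ≤ _ := by linarith
  refine (sum_le_sum hterm).trans ?_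
  rw [sum_add_distrib, ← mul_sum, ← sum_filter]
  have hbad : ∑ n ∈ (Ioc (A - Y / 2) B).filter (fun n : ℕ => ¬ GW lam Q η e Y n), 1 / (n : ℝ) ≤
      ∑ n ∈ (Ioc (A - Y) B).filter (fun n : ℕ => ¬ GW lam Q η e Y n), 1 / (n : ℝ) := by
    apply sum_le_sum_of_subset_of_nonneg
    · apply filter_subset_filter
      apply Ioc_subset_Ioc_left
      omega
    · intro i _ _
      positivity
  have hlog : ∑ n ∈ Ioc (A - Y / 2) B, 1 / (n : ℝ) ≤ 1 + Real.log ((B : ℝ) / A) := by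
    have h1 := hrm (A - Y / 2) (by omega) B (by omega)
    have hA0 : (0 : ℝ) < A := by exact_mod_cast (by omega : 0 < A)
    have hB0 : (0 : ℝ) < B := by exact_mod_cast (by omega : 0 < B)
    have h2 : (A : ℝ) / 2 ≤ ((A - Y / 2 : ℕ) : ℝ) := by
      have h3 : A ≤ 2 * (A - Y / 2) := by omega
      have h4 : (A : ℝ) ≤ 2 * ((A - Y / 2 : ℕ) : ℝ) := by exact_mod_cast h3
      linarith
    have h3 : Real.log ((A : ℝ) / 2) ≤ Real.log ((A - Y / 2 : ℕ) : ℝ) :=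
      Real.log_le_log (by positivity) h2
    rw [Real.log_div hA0.ne' (by norm_num)] at h3
    rw [Real.log_div hB0.ne' hA0.ne']
    have h5 : Real.log 2 ≤ 1 := by
      have := Real.log_two_lt_d9
      linarith
    linarith
  have hlog0 : 0 ≤ Real.log ((B : ℝ) / A) := by
    apply Real.log_nonneg
    have hA0 : (0 : ℝ) < A := by exact_mod_cast (by omega : 0 < A)
    rw [one_le_div hA0]
    exact_mod_cast hAB
  have h7 : 6 * (e / e₁) * ∑ n ∈ Ioc (A - Y / 2) B, 1 / (n : ℝ) ≤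
      12 * (e / e₁) * (1 + Real.log ((B : ℝ) / A)) := by
    calc _ ≤ 6 * (e / e₁) * (1 + Real.log ((B : ℝ) / A)) :=
          mul_le_mul_of_nonneg_left hlog (by positivity)
      _ ≤ _ := by
          apply mul_le_mul_of_nonneg_right _ (by linarith)
          linarith
  exact add_le_add hbad h7

end Pool.Agent.H7.N4D
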