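import Pool.Agent.H6.N4D.TC

/-!
# Row SBW: most sub-windows of a window inherit the structure
-/

set_option autoImplicit false

open Finset Pool.Agent.H6.N4D

namespace Pool.Agent.H7.N4D

theorem pf_SBW : T_SBW := by
  classical
  intro lam Q η e e₁ Y n H Z₀ Z he he1 hZ0 hHY hZ hg
  obtain ⟨θ, φ, hq, hc⟩ := hg
  set Er := (Ioc n (n + Y)).filter fun m : ℕ =>
    lam m * Real.cos (2 * Real.pi * (θ * ((m : ℝ) - n) + φ)) ≤ 0 with hEr
  have hbad : ∀ m ∈ (Ioc n (n + H)).filter (fun m => ¬ GW lam Q η e₁ (Z m) m),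
      e₁ * Z₀ ≤ ∑ k ∈ Er, if m < k ∧ k ≤ m + 2 * Z₀ then (1 : ℝ) else 0 := by
    intro m hm
    rw [mem_filter] at hm
    obtain ⟨hm1, hm2⟩ := hm
    obtain ⟨hz1, hz2⟩ := hZ m hm1
    rw [mem_Ioc] at hm1
    rw [← sum_filter, sum_const, nsmul_eq_mul, mul_one]
    by_contra hlt
    push Not at hlt
    apply hm2
    refine ⟨θ, φ + θ * ((m : ℝ) - n), hq, ?_⟩
    have h1 : (((Ioc m (m + Z m)).filter fun k : ℕ =>
        lam k * Real.cos (2 * Real.pi * (θ * ((k : ℝ) - m) + (φ + θ * ((m : ℝ) - n)))) ≤ 0).card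
          : ℝ) ≤ ((Er.filter fun k => m < k ∧ k ≤ m + 2 * Z₀).card : ℝ) := by
      exact Nat.cast_le.2 <| card_le_card (fun k hk => by
        rw [mem_filter, mem_Ioc] at hk
        rw [mem_filter, hEr, mem_filter, mem_Ioc]
        obtain ⟨⟨hk1, hk2⟩, hk3⟩ := hk
        have h2 : θ * ((k : ℝ) - m) + (φ + θ * ((m : ℝ) - n)) = θ * ((k : ℝ) - n) + φ := by ring
        rw [h2] at hk3
        exact ⟨⟨by omega, hk3⟩, by omega⟩)
    have h3 : e₁ * (Z₀ : ℝ) ≤ e₁ * (Z m : ℝ) :=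
      mul_le_mul_of_nonneg_left (by exact_mod_cast hz1) he1.le
    linarith
  have hsum := sum_le_sum hbad
  rw [sum_const, nsmul_eq_mul, sum_comm] at hsum
  have hk : ∀ k ∈ Er, (∑ m ∈ (Ioc n (n + H)).filter (fun m => ¬ GW lam Q η e₁ (Z m) m),
      if m < k ∧ k ≤ m + 2 * Z₀ then (1 : ℝ) else 0) ≤ 2 * Z₀ := by
    intro k _
    rw [← sum_filter, sum_const, nsmul_eq_mul, mul_one]
    have h1 : (((Ioc n (n + H)).filter (fun m => ¬ GW lam Q η e₁ (Z m) m)).filter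
        (fun m => m < k ∧ k ≤ m + 2 * Z₀)).card ≤ (Ico (k - 2 * Z₀) k).card :=
      card_le_card (fun m hm => by
        rw [mem_filter] at hm
        rw [mem_Ico]
        omega)
    rw [Nat.card_Ico] at h1
    have h2 : (((Ioc n (n + H)).filter (fun m => ¬ GW lam Q η e₁ (Z m) m)).filter
        (fun m => m < k ∧ k ≤ m + 2 * Z₀)).card ≤ 2 * Z₀ := by omega
    exact_mod_cast h2
  have hsum2 := hsum.trans (sum_le_sum hk)
  rw [sum_const, nsmul_eq_mul] at hsum2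
  have hZ0' : (0 : ℝ) < Z₀ := by exact_mod_cast hZ0
  have h4 : (Er.card : ℝ) * (2 * Z₀) ≤ e * Y * (2 * Z₀) :=
    mul_le_mul_of_nonneg_right hc (by positivity)
  have h5 : ((((Ioc n (n + H)).filter fun m => ¬ GW lam Q η e₁ (Z m) m).card : ℝ) * e₁) * Z₀ ≤
      (2 * e * Y) * Z₀ := by nlinarith
  have h6 := le_of_mul_le_mul_right h5 hZ0'
  have h7 : 2 * (e / e₁) * (Y : ℝ) = (2 * e * Y) / e₁ := by ring
  rw [h7, le_div_iff₀ he1]
  exact h6

end Pool.Agent.H7.N4D
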